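import Mathlib

set_option autoImplicit false

open Set Filter Topology MeasureTheory

namespace Pool.Agent.Results.MP_725b87_an.NoUpperTest

/-- `u : ℂⁿ → [-∞,∞]` is plurisubharmonic on `D`: it is `< ∞` and upper semicontinuous on `D`,
and for every closed disc `{a + ζ b : |ζ| ≤ 1} ⊆ D` one has
`u(a) ≤ (1/2π) ∫₀^{2π} u(a + e^{iθ} b) dθ`.  The last inequality is written, for every real `C` that
bounds `u` from above at the centre and on the circle, in the equivalent form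
`∫₀^{2π} (C - u(a + e^{iθ} b)) dθ ≤ 2π (C - u(a))`, an inequality between two elements
of `[0,∞]`. -/
def PSH {n : ℕ} (u : (Fin n → ℂ) → EReal) (D : Set (Fin n → ℂ)) : Prop :=
  (∀ z ∈ D, u z < ⊤) ∧ UpperSemicontinuousOn u D ∧
  ∀ a b : Fin n → ℂ, (∀ ζ : ℂ, ‖ζ‖ ≤ 1 → a + ζ • b ∈ D) →
    ∀ C : ℝ, u a ≤ (C : EReal) →
      (∀ θ : ℝ, u (a + Complex.exp (θ * Complex.I) • b) ≤ (C : EReal)) →
      ∫⁻ θ in Ioc (0 : ℝ) (2 * Real.pi),
          ((C : EReal) - u (a + Complex.exp (θ * Complex.I) • b)).toENNReal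
        ≤ ENNReal.ofReal (2 * Real.pi) * ((C : EReal) - u a).toENNReal

/-- `q` is a differential test from above for `φ` at `z`, on the neighbourhood `V ⊆ Ω`. -/
def IsUpperTest {n : ℕ} (φ : (Fin n → ℂ) → ℝ) (Ω : Set (Fin n → ℂ)) (z : Fin n → ℂ)
    (V : Set (Fin n → ℂ)) (q : (Fin n → ℂ) → ℝ) : Prop :=
  IsOpen V ∧ z ∈ V ∧ V ⊆ Ω ∧ ContDiffOn ℝ 2 q V ∧ ∀ w ∈ V, φ w - q w ≤ φ z - q z

/-- The exceptional set `E(φ)`: the points of `Ω` without differential test from above. -/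
def E {n : ℕ} (φ : (Fin n → ℂ) → ℝ) (Ω : Set (Fin n → ℂ)) : Set (Fin n → ℂ) :=
  {z | z ∈ Ω ∧ ¬ ∃ V q, IsUpperTest φ Ω z V q}

/-- `A` is pluripolar in `D`: some plurisubharmonic `u ≢ -∞` on `D` is `-∞` on `A`. -/
def Pluripolar {n : ℕ} (A D : Set (Fin n → ℂ)) : Prop :=
  ∃ u : (Fin n → ℂ) → EReal, PSH u D ∧ (∃ z ∈ D, u z ≠ ⊥) ∧ ∀ z ∈ A, u z = ⊥

/-! ### Circle means -/

theorem integral_trig (A B C D F : ℝ) :
    ∫ θ in (0 : ℝ)..(2 * Real.pi), (A + B * Real.cos θ + C * Real.sin θ + D * Real.cos (2 * θ)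
      + F * Real.sin (2 * θ)) = 2 * Real.pi * A := by
  have hc : Continuous fun θ : ℝ => A + B * Real.cos θ + C * Real.sin θ + D * Real.cos (2 * θ)
      + F * Real.sin (2 * θ) := by fun_prop
  have hd : ∀ θ : ℝ, HasDerivAt (fun θ : ℝ => A * θ + B * Real.sin θ - C * Real.cos θ
      + D * (Real.sin (2 * θ) / 2) - F * (Real.cos (2 * θ) / 2))
      (A + B * Real.cos θ + C * Real.sin θ + D * Real.cos (2 * θ) + F * Real.sin (2 * θ)) θ := by
    intro θ
    have h2 : HasDerivAt (fun θ : ℝ => 2 * θ) 2 θ := by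
      simpa using (hasDerivAt_id θ).const_mul (2 : ℝ)
    have hs := (Real.hasDerivAt_sin (2 * θ)).comp θ h2
    have hcos := (Real.hasDerivAt_cos (2 * θ)).comp θ h2
    have := (((((hasDerivAt_id θ).const_mul A).add ((Real.hasDerivAt_sin θ).const_mul B)).sub
      ((Real.hasDerivAt_cos θ).const_mul C)).add ((hs.div_const 2).const_mul D)).sub
      ((hcos.div_const 2).const_mul F)
    exact this.congr_deriv (by ring)
  rw [intervalIntegral.integral_eq_sub_of_hasDerivAt (fun θ _ => hd θ)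
    (hc.intervalIntegrable _ _)]
  have h4 : Real.cos (2 * (2 * Real.pi)) = 1 := by
    have := Real.cos_nat_mul_two_pi 2
    push_cast at this
    exact this
  have h5 : Real.sin (2 * (2 * Real.pi)) = 0 := by
    have := Real.sin_nat_mul_pi 4
    push_cast at this
    rw [← this]; congr 1; ring
  simp [h4, h5]
  ring

/-- From the literal sub-mean inequality: a continuous majorant on the circle dominates at
the centre. -/
theorem PSH.le_mean {n : ℕ} {u : (Fin n → ℂ) → EReal} {D : Set (Fin n → ℂ)} (hu : PSH u D)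
    {a b : Fin n → ℂ} (hab : ∀ ζ : ℂ, ‖ζ‖ ≤ 1 → a + ζ • b ∈ D) {g : ℝ → ℝ}
    (hg : Continuous g) {m : ℝ} (hm : u a = (m : EReal))
    (hgu : ∀ θ : ℝ, u (a + Complex.exp (θ * Complex.I) • b) ≤ (g θ : EReal))
    {C : ℝ} (hC : ∀ θ, g θ ≤ C) (hmC : m ≤ C) :
    2 * Real.pi * m ≤ ∫ θ in (0 : ℝ)..(2 * Real.pi), g θ := by
  have hpi : (0 : ℝ) ≤ 2 * Real.pi := by positivity
  have h := hu.2.2 a b hab C (by rw [hm]; exact_mod_cast hmC)
    (fun θ => (hgu θ).trans (by exact_mod_cast hC θ))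
  rw [hm, ← EReal.coe_sub, EReal.toENNReal_of_ne_top (EReal.coe_ne_top _), EReal.toReal_coe,
    ← ENNReal.ofReal_mul hpi] at h
  have h2 : ∫⁻ θ in Ioc (0 : ℝ) (2 * Real.pi), ENNReal.ofReal (C - g θ) ≤
      ∫⁻ θ in Ioc (0 : ℝ) (2 * Real.pi),
          ((C : EReal) - u (a + Complex.exp (θ * Complex.I) • b)).toENNReal := by
    apply lintegral_mono
    intro θ
    have h3 : ((C - g θ : ℝ) : EReal) ≤
        (C : EReal) - u (a + Complex.exp (θ * Complex.I) • b) := by
      rw [EReal.coe_sub]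
      exact EReal.sub_le_sub le_rfl (hgu θ)
    calc ENNReal.ofReal (C - g θ) = ((C - g θ : ℝ) : EReal).toENNReal := by
          rw [EReal.toENNReal_of_ne_top (EReal.coe_ne_top _), EReal.toReal_coe]
      _ ≤ _ := EReal.toENNReal_le_toENNReal h3
  have h4 := h2.trans h
  rw [← ofReal_integral_eq_lintegral_ofReal] at h4
  · rw [ENNReal.ofReal_le_ofReal_iff (mul_nonneg hpi (by linarith)),
      ← intervalIntegral.integral_of_le hpi,
      intervalIntegral.integral_sub (by simp) (hg.intervalIntegrable _ _)] at h4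
    simp at h4
    linarith
  · exact ((continuous_const.sub hg).integrableOn_Icc (a := 0) (b := 2 * Real.pi)).mono_set
      Ioc_subset_Icc_self
  · exact Eventually.of_forall fun θ => by simpa using hC θ


/-! ### A line argument: `-∞` on a real hyperplane spreads -/

/-- The compact region `0 ≤ x ≤ 1`, `y² ≤ (1-x)(2-x)`. -/
def G : Set ℂ := {z | 0 ≤ z.re ∧ z.re ≤ 1 ∧ z.im ^ 2 ≤ (1 - z.re) * (2 - z.re)}

theorem G_normSq {z : ℂ} (hz : z ∈ G) : z.re ^ 2 + z.im ^ 2 ≤ 2 := by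
  obtain ⟨h1, h2, h3⟩ := hz
  nlinarith

theorem G_norm {z : ℂ} (hz : z ∈ G) : ‖z‖ < 2 := by
  have h := G_normSq hz
  rw [← sq_lt_sq₀ (norm_nonneg _) (by norm_num), Complex.sq_norm, Complex.normSq_apply]
  nlinarith

theorem isCompact_G : IsCompact G := by
  have hc : IsClosed G := by
    have : G = {z : ℂ | 0 ≤ z.re} ∩ ({z : ℂ | z.re ≤ 1} ∩
        {z : ℂ | z.im ^ 2 ≤ (1 - z.re) * (2 - z.re)}) := by
      ext z; simp [G]
    rw [this]
    exact (isClosed_le continuous_const Complex.continuous_re).inter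
      ((isClosed_le Complex.continuous_re continuous_const).inter
      (isClosed_le (Complex.continuous_im.pow 2)
        ((continuous_const.sub Complex.continuous_re).mul
          (continuous_const.sub Complex.continuous_re))))
  apply (isCompact_closedBall (0 : ℂ) 2).of_isClosed_subset hc
  intro z hz
  simpa using (G_norm hz).le

theorem line_lemma {n : ℕ} {u : (Fin n → ℂ) → EReal} {D : Set (Fin n → ℂ)} (hu : PSH u D)
    {p v : Fin n → ℂ} (hD : ∀ ζ : ℂ, ‖ζ‖ < 2 → p + ζ • v ∈ D)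
    (hbot : ∀ ζ : ℂ, ‖ζ‖ < 2 → ζ.re = 0 → u (p + ζ • v) = ⊥) (x : ℝ) (hx0 : 0 < x)
    (hx1 : x < 1) : u (p + (x : ℂ) • v) = ⊥ := by
  have hcont : Continuous fun ζ : ℂ => p + ζ • v := by fun_prop
  have husc : UpperSemicontinuousOn (fun ζ : ℂ => u (p + ζ • v)) G := by
    intro ζ hζ
    exact UpperSemicontinuousWithinAt.comp (g := fun ζ : ℂ => p + ζ • v) (s := D) (t := G)
      (hu.2.1 (p + ζ • v) (hD ζ (G_norm hζ))) hcont.continuousWithinAt
      (fun z hz => hD z (G_norm hz))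
  have h0G : (0 : ℂ) ∈ G := by simp [G]
  -- an upper bound on `G`
  obtain ⟨ζ0, hζ0, hmax0⟩ := husc.exists_isMaxOn ⟨0, h0G⟩ isCompact_G
  obtain ⟨C, hC⟩ : ∃ C : ℝ, ∀ ζ ∈ G, u (p + ζ • v) ≤ (C : EReal) := by
    have hlt := hu.1 _ (hD ζ0 (G_norm hζ0))
    obtain ⟨C, hC, -⟩ := EReal.lt_iff_exists_real_btwn.1 hlt
    exact ⟨C, fun ζ hζ => (hmax0 hζ).trans hC.le⟩
  -- the key estimate
  have key : ∀ M : ℝ, 0 < M → ∀ ζ ∈ G, u (p + ζ • v) +
      ((M * ((1 - ζ.re) * (2 - ζ.re) - ζ.im ^ 2) + (ζ.re ^ 2 + ζ.im ^ 2) : ℝ) : EReal) ≤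
      ((C + 2 : ℝ) : EReal) := by
    intro M hM
    set k : ℂ → ℝ := fun ζ =>
      M * ((1 - ζ.re) * (2 - ζ.re) - ζ.im ^ 2) + (ζ.re ^ 2 + ζ.im ^ 2) with hk
    have hkc : Continuous k := by fun_prop
    have hw : UpperSemicontinuousOn (fun ζ : ℂ => u (p + ζ • v) + ((k ζ : ℝ) : EReal)) G := by
      apply UpperSemicontinuousOn.add' husc
      · exact (continuous_coe_real_ereal.comp hkc).upperSemicontinuous.upperSemicontinuousOn G
      · intro ζ hζ
        exact EReal.continuousAt_add (Or.inr (EReal.coe_ne_bot _)) (Or.inr (EReal.coe_ne_top _))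
    obtain ⟨ζ1, hζ1, hmax⟩ := hw.exists_isMaxOn ⟨0, h0G⟩ isCompact_G
    suffices h : u (p + ζ1 • v) + ((k ζ1 : ℝ) : EReal) ≤ ((C + 2 : ℝ) : EReal) by
      intro ζ hζ
      exact (hmax hζ).trans h
    have hG1 := hζ1
    obtain ⟨ha, hb, hc⟩ := hζ1
    by_cases hre : ζ1.re = 0
    · rw [hbot ζ1 (G_norm hG1) hre]
      simp
    by_cases hh : (1 - ζ1.re) * (2 - ζ1.re) - ζ1.im ^ 2 = 0
    · have h1 : k ζ1 ≤ 2 := by
        rw [hk]; simp only [hh]
        have := G_normSq hG1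
        linarith
      calc u (p + ζ1 • v) + ((k ζ1 : ℝ) : EReal) ≤ (C : EReal) + ((2 : ℝ) : EReal) :=
            add_le_add (hC ζ1 hG1) (by exact_mod_cast h1)
        _ = ((C + 2 : ℝ) : EReal) := by push_cast; rfl
    -- interior case
    have hre' : 0 < ζ1.re := lt_of_le_of_ne ha (Ne.symm hre)
    have hh' : 0 < (1 - ζ1.re) * (2 - ζ1.re) - ζ1.im ^ 2 :=
      lt_of_le_of_ne (by linarith) (Ne.symm hh)
    have hb' : ζ1.re < 1 := by
      rcases hb.lt_or_eq with h | h
      · exact h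
      · exfalso
        rw [h] at hh'
        nlinarith [sq_nonneg ζ1.im]
    by_cases hub : u (p + ζ1 • v) = ⊥
    · rw [hub]; simp
    exfalso
    have hut : u (p + ζ1 • v) ≠ ⊤ := (hu.1 _ (hD ζ1 (G_norm hG1))).ne
    obtain ⟨m, hm⟩ : ∃ m : ℝ, u (p + ζ1 • v) = (m : EReal) :=
      ⟨_, (EReal.coe_toReal hut hub).symm⟩
    -- a small disc around `ζ1`
    have hopen : IsOpen {z : ℂ | 0 < z.re ∧ z.re < 1 ∧
        0 < (1 - z.re) * (2 - z.re) - z.im ^ 2} := by
      have : {z : ℂ | 0 < z.re ∧ z.re < 1 ∧ 0 < (1 - z.re) * (2 - z.re) - z.im ^ 2} =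
          {z : ℂ | 0 < z.re} ∩ ({z : ℂ | z.re < 1} ∩
          {z : ℂ | 0 < (1 - z.re) * (2 - z.re) - z.im ^ 2}) := by
        ext z; simp
      rw [this]
      exact (isOpen_lt continuous_const Complex.continuous_re).inter
        ((isOpen_lt Complex.continuous_re continuous_const).inter
        (isOpen_lt continuous_const (((continuous_const.sub Complex.continuous_re).mul
          (continuous_const.sub Complex.continuous_re)).sub (Complex.continuous_im.pow 2))))
    obtain ⟨r, hr, hball⟩ := Metric.isOpen_iff.1 hopen ζ1 ⟨hre', hb', hh'⟩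
    have hG : ∀ z : ℂ, ‖z‖ ≤ 1 → ζ1 + (r / 2 : ℝ) * z ∈ G := by
      intro z hz
      have : ζ1 + (r / 2 : ℝ) * z ∈ Metric.ball ζ1 r := by
        rw [mem_ball_iff_norm, add_sub_cancel_left, norm_mul, Complex.norm_real,
          Real.norm_of_nonneg (by positivity)]
        nlinarith [norm_nonneg z]
      obtain ⟨h1, h2, h3⟩ := hball this
      exact ⟨h1.le, h2.le, by linarith⟩
    set s : ℝ := r / 2 with hs
    have hs0 : 0 < s := by positivity
    set g : ℝ → ℝ := fun θ => (m - s ^ 2) +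
      (M * s * (3 - 2 * ζ1.re) - 2 * ζ1.re * s) * Real.cos θ +
      (2 * M * ζ1.im * s - 2 * ζ1.im * s) * Real.sin θ + (-(M * s ^ 2)) * Real.cos (2 * θ)
      + 0 * Real.sin (2 * θ) with hg
    have hgc : Continuous g := by fun_prop
    have hgu : ∀ θ : ℝ, u ((p + ζ1 • v) + Complex.exp (θ * Complex.I) • ((s : ℂ) • v)) ≤
        (g θ : EReal) := by
      intro θ
      have hz : ζ1 + (s : ℂ) * Complex.exp (θ * Complex.I) ∈ G :=
        hG _ (by rw [Complex.norm_exp_ofReal_mul_I])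
      have h1 : (p + ζ1 • v) + Complex.exp (θ * Complex.I) • ((s : ℂ) • v) =
          p + (ζ1 + (s : ℂ) * Complex.exp (θ * Complex.I)) • v := by
        rw [smul_smul, add_smul, add_assoc, mul_comm]
      have h2 : u (p + (ζ1 + (s : ℂ) * Complex.exp (θ * Complex.I)) • v) +
          ((k (ζ1 + (s : ℂ) * Complex.exp (θ * Complex.I)) : ℝ) : EReal) ≤
          u (p + ζ1 • v) + ((k ζ1 : ℝ) : EReal) := hmax hz
      rw [h1]
      rw [hm, ← EReal.coe_add] at h2
      have h3 : u (p + (ζ1 + (s : ℂ) * Complex.exp (θ * Complex.I)) • v) ≤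
          ((m + k ζ1 - k (ζ1 + (s : ℂ) * Complex.exp (θ * Complex.I)) : ℝ) : EReal) := by
        rw [EReal.coe_sub]
        exact EReal.le_sub_iff_add_le (Or.inl (EReal.coe_ne_bot _))
          (Or.inl (EReal.coe_ne_top _)) |>.2 h2
      refine h3.trans (le_of_eq ?_)
      congr 1
      have hre2 : (ζ1 + (s : ℂ) * Complex.exp (θ * Complex.I)).re = ζ1.re + s * Real.cos θ := by
        simp [Complex.exp_mul_I, Complex.cos_ofReal_re, Complex.sin_ofReal_im,
          Complex.cos_ofReal_im, Complex.sin_ofReal_re]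
      have him2 : (ζ1 + (s : ℂ) * Complex.exp (θ * Complex.I)).im = ζ1.im + s * Real.sin θ := by
        simp [Complex.exp_mul_I, Complex.cos_ofReal_re, Complex.sin_ofReal_im,
          Complex.cos_ofReal_im, Complex.sin_ofReal_re]
      rw [hk, hg]
      simp only [hre2, him2]
      rw [Real.cos_two_mul]
      have hsc := Real.sin_sq_add_cos_sq θ
      have hsin : Real.sin θ ^ 2 = 1 - Real.cos θ ^ 2 := by linarith
      ring_nf
      rw [hsin]
      ring
    have hab : ∀ ζ : ℂ, ‖ζ‖ ≤ 1 → (p + ζ1 • v) + ζ • ((s : ℂ) • v) ∈ D := by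
      intro ζ hζ
      have h1 : (p + ζ1 • v) + ζ • ((s : ℂ) • v) = p + (ζ1 + (s : ℂ) * ζ) • v := by
        rw [smul_smul, add_smul, add_assoc, mul_comm]
      rw [h1]
      exact hD _ (G_norm (hG ζ hζ))
    -- a bound for `g`
    have hgb : ∀ θ, g θ ≤ |m| + s ^ 2 + |M * s * (3 - 2 * ζ1.re) - 2 * ζ1.re * s| +
        |2 * M * ζ1.im * s - 2 * ζ1.im * s| + M * s ^ 2 := by
      intro θ
      have h1 : (M * s * (3 - 2 * ζ1.re) - 2 * ζ1.re * s) * Real.cos θ ≤
          |M * s * (3 - 2 * ζ1.re) - 2 * ζ1.re * s| := by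
        refine (le_abs_self _).trans ?_
        rw [abs_mul]
        exact mul_le_of_le_one_right (abs_nonneg _) (Real.abs_cos_le_one θ)
      have h2 : (2 * M * ζ1.im * s - 2 * ζ1.im * s) * Real.sin θ ≤
          |2 * M * ζ1.im * s - 2 * ζ1.im * s| := by
        refine (le_abs_self _).trans ?_
        rw [abs_mul]
        exact mul_le_of_le_one_right (abs_nonneg _) (Real.abs_sin_le_one θ)
      have h3 : (-(M * s ^ 2)) * Real.cos (2 * θ) ≤ M * s ^ 2 := by
        have := Real.neg_one_le_cos (2 * θ)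
        have hp : 0 < M * s ^ 2 := by positivity
        nlinarith
      have h4 := le_abs_self m
      rw [hg]
      have : 0 ≤ s ^ 2 := sq_nonneg s
      linarith
    have hle := hu.le_mean hab hgc hm hgu hgb (by
      have h4 := le_abs_self m
      have h5 : 0 ≤ |M * s * (3 - 2 * ζ1.re) - 2 * ζ1.re * s| := abs_nonneg _
      have h6 : 0 ≤ |2 * M * ζ1.im * s - 2 * ζ1.im * s| := abs_nonneg _
      have h7 : 0 ≤ M * s ^ 2 := by positivity
      have : 0 ≤ s ^ 2 := sq_nonneg s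
      linarith)
    rw [hg, integral_trig] at hle
    have : (0 : ℝ) < 2 * Real.pi := by positivity
    have h8 := (mul_le_mul_iff_of_pos_left this).1 hle
    have : 0 < s ^ 2 := by positivity
    linarith
  -- conclusion
  by_contra hne
  have hxG : (x : ℂ) ∈ G := by
    refine ⟨by simpa using hx0.le, by simpa using hx1.le, ?_⟩
    simp only [Complex.ofReal_im, Complex.ofReal_re]
    nlinarith
  have hut : u (p + (x : ℂ) • v) ≠ ⊤ := (hu.1 _ (hD _ (G_norm hxG))).ne
  obtain ⟨m, hm⟩ : ∃ m : ℝ, u (p + (x : ℂ) • v) = (m : EReal) :=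
    ⟨_, (EReal.coe_toReal hut hne).symm⟩
  have hpos : 0 < (1 - x) * (2 - x) := by nlinarith
  have := key ((|C| + |m| + 3) / ((1 - x) * (2 - x))) (by positivity) x hxG
  rw [hm, ← EReal.coe_add, EReal.coe_le_coe_iff] at this
  simp only [Complex.ofReal_im, Complex.ofReal_re] at this
  have h1 : (|C| + |m| + 3) / ((1 - x) * (2 - x)) * ((1 - x) * (2 - x) - 0 ^ 2) =
      |C| + |m| + 3 := by
    rw [div_mul_eq_mul_div, show (1 - x) * (2 - x) - 0 ^ 2 = (1 - x) * (2 - x) by ring,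
      mul_div_assoc, div_self hpos.ne', mul_one]
  rw [h1] at this
  have h2 := neg_abs_le m
  have h3 := le_abs_self C
  nlinarith [sq_nonneg x]


/-! ### `-∞` on an open set spreads over a connected open set -/

theorem eq_bot_of_circle {n : ℕ} {u : (Fin n → ℂ) → EReal} {D : Set (Fin n → ℂ)} (hu : PSH u D)
    {z w : Fin n → ℂ} (hD : ∀ ζ : ℂ, ‖ζ‖ ≤ 1 → z + ζ • (w - z) ∈ D)
    (hw : ∀ᶠ x in 𝓝 w, u x = ⊥) : u z = ⊥ := by
  have hcont : Continuous fun ζ : ℂ => z + ζ • (w - z) := by fun_prop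
  have husc : UpperSemicontinuousOn (fun ζ : ℂ => u (z + ζ • (w - z)))
      (Metric.closedBall (0 : ℂ) 1) := by
    intro ζ hζ
    exact UpperSemicontinuousWithinAt.comp (g := fun ζ : ℂ => z + ζ • (w - z)) (s := D)
      (t := Metric.closedBall (0 : ℂ) 1)
      (hu.2.1 (z + ζ • (w - z)) (hD ζ (by simpa using hζ))) hcont.continuousWithinAt
      (fun x hx => hD x (by simpa using hx))
  obtain ⟨ζ0, hζ0, hmax0⟩ := husc.exists_isMaxOn ⟨0, by simp⟩ (isCompact_closedBall (0 : ℂ) 1)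
  obtain ⟨C, hC⟩ : ∃ C : ℝ, ∀ ζ : ℂ, ‖ζ‖ ≤ 1 → u (z + ζ • (w - z)) ≤ (C : EReal) := by
    have hlt := hu.1 _ (hD ζ0 (by simpa using hζ0))
    obtain ⟨C, hC, -⟩ := EReal.lt_iff_exists_real_btwn.1 hlt
    refine ⟨C, fun ζ hζ => ?_⟩
    have := hmax0 (show ζ ∈ Metric.closedBall (0 : ℂ) 1 by simpa using hζ)
    exact le_trans this hC.le
  have h0 : u z ≤ (C : EReal) := by simpa using hC 0 (by simp)
  have h := hu.2.2 z (w - z) hD C h0
    (fun θ => hC _ (by rw [Complex.norm_exp_ofReal_mul_I]))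
  -- the circle passes through `w` at `θ = 0`
  have hc2 : Continuous fun θ : ℝ => z + Complex.exp (θ * Complex.I) • (w - z) := by fun_prop
  have hlim : Tendsto (fun θ : ℝ => z + Complex.exp (θ * Complex.I) • (w - z)) (𝓝 0) (𝓝 w) := by
    have := hc2.tendsto 0
    simpa using this
  obtain ⟨δ, hδ, hball⟩ := Metric.eventually_nhds_iff.1 (hlim.eventually hw)
  have htop : ∫⁻ θ in Ioc (0 : ℝ) (2 * Real.pi),
      ((C : EReal) - u (z + Complex.exp (θ * Complex.I) • (w - z))).toENNReal = ⊤ := by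
    apply top_unique
    have hpi := Real.pi_pos
    set S : Set ℝ := Ioc 0 (min (δ / 2) (2 * Real.pi)) with hS
    have hsub : S ⊆ Ioc (0 : ℝ) (2 * Real.pi) := fun θ hθ => ⟨hθ.1, hθ.2.trans (min_le_right _ _)⟩
    calc (⊤ : ENNReal) = ∫⁻ θ in S, ⊤ := by
          rw [lintegral_const, Measure.restrict_apply_univ, hS, Real.volume_Ioc,
            ENNReal.top_mul]
          simp only [sub_zero, ne_eq, ENNReal.ofReal_eq_zero, not_le, lt_min_iff]
          constructor <;> positivity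
      _ ≤ ∫⁻ θ in S, ((C : EReal) - u (z + Complex.exp (θ * Complex.I) • (w - z))).toENNReal := by
          apply setLIntegral_mono' measurableSet_Ioc
          intro θ hθ
          have h1 : u (z + Complex.exp (θ * Complex.I) • (w - z)) = ⊥ := by
            apply hball
            rw [Real.dist_eq, sub_zero, abs_of_pos hθ.1]
            exact lt_of_le_of_lt (hθ.2.trans (min_le_left _ _)) (by linarith)
          rw [h1]
          simp
      _ ≤ _ := lintegral_mono_set hsub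
  rw [htop] at h
  by_contra hne
  obtain ⟨m, hm⟩ : ∃ m : ℝ, u z = (m : EReal) :=
    ⟨_, (EReal.coe_toReal (hu.1 z (by simpa using hD 0 (by simp))).ne hne).symm⟩
  rw [hm, ← EReal.coe_sub, EReal.toENNReal_of_ne_top (EReal.coe_ne_top _)] at h
  exact ENNReal.mul_ne_top ENNReal.ofReal_ne_top ENNReal.ofReal_ne_top (top_unique h)

theorem eq_bot_of_open {n : ℕ} {u : (Fin n → ℂ) → EReal} {D : Set (Fin n → ℂ)} (hu : PSH u D)
    (hDo : IsOpen D) (hDc : IsPreconnected D) {p : Fin n → ℂ} (hp : p ∈ D)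
    (hpb : ∀ᶠ x in 𝓝 p, u x = ⊥) : ∀ z ∈ D, u z = ⊥ := by
  set U : Set (Fin n → ℂ) := {x | ∀ᶠ y in 𝓝 x, u y = ⊥} with hU
  have hUo : IsOpen U := isOpen_setOfPred_eventually_nhds
  have hsub : D ⊆ U := by
    apply hDc.subset_of_closure_inter_subset hUo ⟨p, hp, hpb⟩
    rintro a ⟨ha, haD⟩
    obtain ⟨R, hR, hball⟩ := Metric.isOpen_iff.1 hDo a haD
    obtain ⟨w, hwU, hw⟩ := Metric.mem_closure_iff.1 ha (R / 3) (by positivity)
    rw [hU, mem_ofPred_eq]
    rw [Metric.eventually_nhds_iff]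
    refine ⟨R / 3, by positivity, fun z hz => ?_⟩
    apply eq_bot_of_circle hu (w := w) ?_ hwU
    intro ζ hζ
    apply hball
    rw [mem_ball_iff_norm]
    have h1 : ‖ζ • (w - z)‖ ≤ ‖w - z‖ := by
      rw [norm_smul]
      exact mul_le_of_le_one_left (norm_nonneg _) hζ
    have h2 : ‖w - z‖ ≤ ‖w - a‖ + ‖a - z‖ := by
      have := norm_add_le (w - a) (a - z)
      simpa using this
    have h3 : ‖z + ζ • (w - z) - a‖ ≤ ‖z - a‖ + ‖ζ • (w - z)‖ := by
      have : z + ζ • (w - z) - a = (z - a) + ζ • (w - z) := by abel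
      rw [this]
      exact norm_add_le _ _
    rw [dist_eq_norm] at hw hz
    have h4 : ‖w - a‖ = ‖a - w‖ := norm_sub_rev _ _
    have h5 : ‖z - a‖ = ‖a - z‖ := norm_sub_rev _ _
    linarith
  intro z hz
  exact (hsub hz).self_of_nhds

/-! ### The function `|Re z₁ - c|` -/

/-- `φ(z) = |Re z₁ - c|`. -/
def phi {n : ℕ} (hn : 0 < n) (c : ℝ) (z : Fin n → ℂ) : ℝ := |(z ⟨0, hn⟩).re - c|

theorem continuous_phi {n : ℕ} (hn : 0 < n) (c : ℝ) : Continuous (phi hn c) := by
  unfold phi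
  fun_prop

theorem phi_psh {n : ℕ} (hn : 0 < n) (c : ℝ) (D : Set (Fin n → ℂ)) :
    PSH (fun z => ((phi hn c z : ℝ) : EReal)) D := by
  refine ⟨fun z _ => EReal.coe_lt_top _, ?_, ?_⟩
  · exact (continuous_coe_real_ereal.comp (continuous_phi hn c)).upperSemicontinuous.upperSemicontinuousOn D
  · intro a b _ C hCa hC
    have hpi : (0 : ℝ) ≤ 2 * Real.pi := by positivity
    simp only [← EReal.coe_sub, EReal.toENNReal_of_ne_top (EReal.coe_ne_top _), EReal.toReal_coe]
    have hc : Continuous fun θ : ℝ => phi hn c (a + Complex.exp (θ * Complex.I) • b) :=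
      (continuous_phi hn c).comp (by fun_prop)
    have hC' : ∀ θ : ℝ, phi hn c (a + Complex.exp (θ * Complex.I) • b) ≤ C := fun θ =>
      EReal.coe_le_coe_iff.1 (hC θ)
    rw [← ENNReal.ofReal_mul hpi, ← ofReal_integral_eq_lintegral_ofReal]
    · apply ENNReal.ofReal_le_ofReal
      rw [← intervalIntegral.integral_of_le hpi,
        intervalIntegral.integral_sub (by simp) (hc.intervalIntegrable _ _)]
      simp only [intervalIntegral.integral_const, sub_zero, smul_eq_mul]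
      have hre : ∀ θ : ℝ, ((a + Complex.exp (θ * Complex.I) • b) ⟨0, hn⟩).re - c =
          ((a ⟨0, hn⟩).re - c) + (b ⟨0, hn⟩).re * Real.cos θ + (-(b ⟨0, hn⟩).im) * Real.sin θ
            + 0 * Real.cos (2 * θ) + 0 * Real.sin (2 * θ) := by
        intro θ
        simp [Complex.exp_mul_I, Complex.cos_ofReal_re, Complex.sin_ofReal_im,
          Complex.cos_ofReal_im, Complex.sin_ofReal_re]
        ring
      have h1 : 2 * Real.pi * ((a ⟨0, hn⟩).re - c) = ∫ θ in (0 : ℝ)..(2 * Real.pi),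
          (((a + Complex.exp (θ * Complex.I) • b) ⟨0, hn⟩).re - c) := by
        simp_rw [hre]
        rw [integral_trig]
      have h2 : 2 * Real.pi * phi hn c a ≤ ∫ θ in (0 : ℝ)..(2 * Real.pi),
          phi hn c (a + Complex.exp (θ * Complex.I) • b) := by
        have h3 : 2 * Real.pi * phi hn c a = |2 * Real.pi * ((a ⟨0, hn⟩).re - c)| := by
          rw [abs_mul, abs_of_nonneg hpi, phi]
        rw [h3, h1]
        exact intervalIntegral.abs_integral_le_integral_abs hpi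
      linarith
    · exact ((continuous_const.sub hc).integrableOn_Icc (a := 0) (b := 2 * Real.pi)).mono_set
        Ioc_subset_Icc_self
    · exact Eventually.of_forall fun θ => by simpa using hC' θ

theorem E_phi {n : ℕ} (hn : 0 < n) (c : ℝ) {Ω : Set (Fin n → ℂ)} (hΩ : IsOpen Ω) :
    E (phi hn c) Ω = {z | z ∈ Ω ∧ (z ⟨0, hn⟩).re = c} := by
  ext z
  constructor
  · rintro ⟨hz, hno⟩
    refine ⟨hz, ?_⟩
    by_contra hne
    apply hno
    rcases lt_or_gt_of_ne hne with h | h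
    · refine ⟨Ω ∩ {w | (w ⟨0, hn⟩).re < c}, fun w => c - (w ⟨0, hn⟩).re, ?_, ⟨hz, h⟩,
        inter_subset_left, ?_, ?_⟩
      · exact hΩ.inter (isOpen_lt (by fun_prop) continuous_const)
      · have : ContDiff ℝ 2 fun w : Fin n → ℂ => c - (w ⟨0, hn⟩).re :=
          contDiff_const.sub (Complex.reCLM.contDiff.comp (contDiff_apply ℝ ℂ (⟨0, hn⟩ : Fin n)))
        exact this.contDiffOn
      · rintro w ⟨_, hw⟩
        have hw' : (w ⟨0, hn⟩).re - c < 0 := by simpa [sub_neg] using hw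
        have hz' : (z ⟨0, hn⟩).re - c < 0 := by linarith
        simp only [phi, abs_of_neg hw', abs_of_neg hz']
        linarith
    · refine ⟨Ω ∩ {w | c < (w ⟨0, hn⟩).re}, fun w => (w ⟨0, hn⟩).re - c, ?_, ⟨hz, h⟩,
        inter_subset_left, ?_, ?_⟩
      · exact hΩ.inter (isOpen_lt continuous_const (by fun_prop))
      · have : ContDiff ℝ 2 fun w : Fin n → ℂ => (w ⟨0, hn⟩).re - c :=
          (Complex.reCLM.contDiff.comp (contDiff_apply ℝ ℂ (⟨0, hn⟩ : Fin n))).sub contDiff_const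
        exact this.contDiffOn
      · rintro w ⟨_, hw⟩
        have hw' : 0 < (w ⟨0, hn⟩).re - c := by simpa [sub_pos] using hw
        have hz' : 0 < (z ⟨0, hn⟩).re - c := by linarith
        simp only [phi, abs_of_pos hw', abs_of_pos hz']
        linarith
  · rintro ⟨hz, hc⟩
    refine ⟨hz, ?_⟩
    rintro ⟨V, q, hVo, hzV, -, hq, hmax⟩
    -- restrict to the real line through `z` in the direction `e₁`
    set e : Fin n → ℂ := Pi.single ⟨0, hn⟩ 1 with he
    have hline : HasDerivAt (fun t : ℝ => z + t • e) e 0 := by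
      have h1 : HasDerivAt (fun t : ℝ => t • e) ((1 : ℝ) • e) 0 :=
        (hasDerivAt_id (0 : ℝ)).smul_const e
      have h2 := h1.const_add z
      simpa using h2
    have hqd : DifferentiableAt ℝ q (z + (0 : ℝ) • e) := by
      have : z + (0 : ℝ) • e = z := by simp
      rw [this]
      exact ((hq.differentiableOn (by norm_num)) z hzV).differentiableAt (hVo.mem_nhds hzV)
    have hcomp := hqd.hasFDerivAt.comp_hasDerivAt (0 : ℝ) hline
    set d : ℝ := (fderiv ℝ q (z + (0 : ℝ) • e)) e with hd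
    have hVev : ∀ᶠ t : ℝ in 𝓝 0, z + t • e ∈ V := by
      have hc3 : Continuous fun t : ℝ => z + t • e := by fun_prop
      have := hc3.tendsto 0
      simp only [zero_smul, add_zero] at this
      exact this.eventually (hVo.mem_nhds hzV)
    have hineq : ∀ᶠ t : ℝ in 𝓝 0, |t| ≤ q (z + t • e) - q z := by
      filter_upwards [hVev] with t ht
      have := hmax _ ht
      have h1 : phi hn c (z + t • e) = |t| := by
        simp [phi, he, hc]
      have h2 : phi hn c z = 0 := by simp [phi, hc]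
      rw [h1, h2] at this
      linarith
    -- slopes from both sides
    have hslope := hasDerivAt_iff_tendsto_slope.1 hcomp
    have h0 : (q ∘ fun t : ℝ => z + t • e) 0 = q z := by simp
    have hge : (1 : ℝ) ≤ d := by
      have hr : Tendsto (slope (q ∘ fun t : ℝ => z + t • e) 0) (𝓝[>] 0) (𝓝 d) :=
        hslope.mono_left (nhdsWithin_mono _ fun x hx => ne_of_gt hx)
      apply ge_of_tendsto hr
      filter_upwards [hineq.filter_mono nhdsWithin_le_nhds, self_mem_nhdsWithin] with t ht htpos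
      rw [slope_def_field, h0, sub_zero, le_div_iff₀ htpos, one_mul]
      calc t = |t| := (abs_of_pos htpos).symm
        _ ≤ _ := ht
    have hle : d ≤ -1 := by
      have hl : Tendsto (slope (q ∘ fun t : ℝ => z + t • e) 0) (𝓝[<] 0) (𝓝 d) :=
        hslope.mono_left (nhdsWithin_mono _ fun x hx => ne_of_lt hx)
      apply le_of_tendsto hl
      filter_upwards [hineq.filter_mono nhdsWithin_le_nhds, self_mem_nhdsWithin] with t ht htneg
      rw [slope_def_field, h0, sub_zero, div_le_iff_of_neg htneg]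
      calc -1 * t = |t| := by rw [abs_of_neg htneg]; ring
        _ ≤ _ := ht
    linarith

/-- Main local statement: a plurisubharmonic function on a domain `D` that is `-∞` on
`E(φ) ∩ D ≠ ∅` is identically `-∞`. -/
theorem eq_bot_of_eq_bot_on {n : ℕ} (hn : 0 < n) (c : ℝ) {Ω D : Set (Fin n → ℂ)}
    (hΩ : IsOpen Ω) (hDo : IsOpen D) (hDc : IsPreconnected D)
    (hne : (E (phi hn c) Ω ∩ D).Nonempty) {u : (Fin n → ℂ) → EReal} (hu : PSH u D)
    (hub : ∀ z ∈ E (phi hn c) Ω ∩ D, u z = ⊥) : ∀ z ∈ D, u z = ⊥ := by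
  rw [E_phi hn c hΩ] at hne hub
  obtain ⟨p, ⟨hpΩ, hpc⟩, hpD⟩ := hne
  obtain ⟨R, hR, hball⟩ := Metric.isOpen_iff.1 (hΩ.inter hDo) p ⟨hpΩ, hpD⟩
  set e : Fin n → ℂ := Pi.single ⟨0, hn⟩ 1 with he
  have hnorm : ‖e‖ = 1 := by
    rw [he]; simp [Pi.norm_single]
  set ρ : ℝ := R / 8 with hρ
  have hρ0 : 0 < ρ := by positivity
  set v : Fin n → ℂ := (ρ : ℂ) • e with hv
  have hvn : ‖v‖ = ρ := by
    rw [hv, norm_smul, hnorm, Complex.norm_real, Real.norm_of_nonneg hρ0.le, mul_one]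
  -- translates of `p` inside the hyperplane
  have hstep : ∀ p' : Fin n → ℂ, ‖p' - p‖ < R / 2 → (p' ⟨0, hn⟩).re = c →
      ∀ x : ℝ, 0 < x → x < 1 → u (p' + (x : ℂ) • v) = ⊥ := by
    intro p' hp' hpc' x hx0 hx1
    have hin : ∀ ζ : ℂ, ‖ζ‖ < 2 → p' + ζ • v ∈ Ω ∩ D := by
      intro ζ hζ
      apply hball
      rw [mem_ball_iff_norm]
      have h1 : p' + ζ • v - p = (p' - p) + ζ • v := by abel
      rw [h1]
      have h2 : ‖ζ • v‖ ≤ 2 * ρ := by
        rw [norm_smul, hvn]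
        exact mul_le_mul_of_nonneg_right hζ.le hρ0.le
      have h3 := norm_add_le (p' - p) (ζ • v)
      have h4 : 2 * ρ = R / 4 := by rw [hρ]; ring
      linarith
    apply line_lemma hu (fun ζ hζ => (hin ζ hζ).2) ?_ x hx0 hx1
    intro ζ hζ hre
    apply hub
    refine ⟨⟨(hin ζ hζ).1, ?_⟩, (hin ζ hζ).2⟩
    simp [hv, he, hpc', hre]
  -- an open set on which `u = -∞`
  set q : Fin n → ℂ := p + ((1 / 2 : ℝ) : ℂ) • v with hq
  have hqre : (q ⟨0, hn⟩).re = c + ρ / 2 := by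
    simp [hq, hv, he, hpc]
    ring
  have hqD : q ∈ D := by
    have : q ∈ Ω ∩ D := by
      apply hball
      rw [mem_ball_iff_norm, hq, add_sub_cancel_left, norm_smul, hvn, Complex.norm_real,
        Real.norm_of_nonneg (by norm_num)]
      rw [hρ]
      linarith
    exact this.2
  apply eq_bot_of_open hu hDo hDc hqD
  rw [Metric.eventually_nhds_iff]
  refine ⟨ρ / 2, by positivity, fun w hw => ?_⟩
  rw [dist_eq_norm] at hw
  have hwre : |(w ⟨0, hn⟩).re - (c + ρ / 2)| < ρ / 2 := by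
    rw [← hqre, ← Complex.sub_re]
    have h1 : ‖(w - q) ⟨0, hn⟩‖ ≤ ‖w - q‖ := norm_le_pi_norm _ _
    have h2 : |((w - q) ⟨0, hn⟩).re| ≤ ‖(w - q) ⟨0, hn⟩‖ := Complex.abs_re_le_norm _
    exact lt_of_le_of_lt (h2.trans h1) hw
  rw [abs_lt] at hwre
  set x : ℝ := ((w ⟨0, hn⟩).re - c) / ρ with hx
  have hx0 : 0 < x := by
    rw [hx]
    apply div_pos _ hρ0
    linarith
  have hx1 : x < 1 := by
    rw [hx, div_lt_one hρ0]
    linarith
  set p' : Fin n → ℂ := w - (x : ℂ) • v with hp'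
  have hpw : p' + (x : ℂ) • v = w := by rw [hp']; abel
  rw [← hpw]
  refine hstep p' ?_ ?_ x hx0 hx1
  · have h1 : p' - p = (w - q) + (q - p) - (x : ℂ) • v := by rw [hp']; abel
    have h2 : ‖q - p‖ ≤ ρ := by
      rw [hq, add_sub_cancel_left, norm_smul, hvn, Complex.norm_real,
        Real.norm_of_nonneg (by norm_num)]
      linarith
    have h3 : ‖(x : ℂ) • v‖ ≤ ρ := by
      rw [norm_smul, hvn, Complex.norm_real, Real.norm_of_nonneg hx0.le]
      exact mul_le_of_le_one_left hρ0.le hx1.le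
    rw [h1]
    have h4 := norm_sub_le ((w - q) + (q - p)) ((x : ℂ) • v)
    have h5 := norm_add_le (w - q) (q - p)
    have h6 : ρ = R / 8 := hρ
    linarith
  · have : (((x : ℂ) • v) ⟨0, hn⟩).re = (w ⟨0, hn⟩).re - c := by
      have h1 : (((x : ℂ) • v) ⟨0, hn⟩).re = x * ρ := by
        simp [hv, he]
      rw [h1, hx, div_mul_cancel₀ _ hρ0.ne']
    rw [hp', Pi.sub_apply, Complex.sub_re, this]
    ring

/-- **Q2 is false, in every dimension and on every domain.** For every `n ≥ 1` and every nonempty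
connected open `Ω ⊆ ℂⁿ` (in particular every bounded pseudoconvex domain) there is a continuous
real-valued plurisubharmonic function `φ` on `Ω` whose exceptional set `E(φ)` is not pluripolar:
not pluripolar in `Ω`, nor in any connected open set that contains `Ω`, and not even locally:
if `D` is a connected open set meeting `E(φ)` and `u` is plurisubharmonic on `D` with
`u = -∞` on `E(φ) ∩ D`, then `u ≡ -∞` on `D`. -/
theorem result (n : ℕ) (hn : 0 < n) (Ω : Set (Fin n → ℂ)) (hΩ : IsOpen Ω)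
    (hconn : IsConnected Ω) :
    ∃ φ : (Fin n → ℂ) → ℝ, Continuous φ ∧ PSH (fun z => ((φ z : ℝ) : EReal)) Ω ∧
      (E φ Ω).Nonempty ∧
      ¬ Pluripolar (E φ Ω) Ω ∧
      (∀ D, IsOpen D → IsPreconnected D → Ω ⊆ D → ¬ Pluripolar (E φ Ω) D) ∧
      (∀ D, IsOpen D → IsPreconnected D → (E φ Ω ∩ D).Nonempty →
        ∀ u : (Fin n → ℂ) → EReal, PSH u D → (∀ z ∈ E φ Ω ∩ D, u z = ⊥) → ∀ z ∈ D, u z = ⊥) := by
  obtain ⟨a, ha⟩ := hconn.nonempty
  have hmem : a ∈ E (phi hn (a ⟨0, hn⟩).re) Ω := by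
    rw [E_phi hn _ hΩ]
    exact ⟨ha, rfl⟩
  have hbig : ∀ D, IsOpen D → IsPreconnected D → Ω ⊆ D →
      ¬ Pluripolar (E (phi hn (a ⟨0, hn⟩).re) Ω) D := by
    rintro D hDo hDc hsub ⟨u, hu, ⟨z, hz, hzne⟩, hub⟩
    exact hzne (eq_bot_of_eq_bot_on hn _ hΩ hDo hDc ⟨a, hmem, hsub ha⟩ hu
      (fun w hw => hub w hw.1) z hz)
  refine ⟨phi hn (a ⟨0, hn⟩).re, continuous_phi hn _, phi_psh hn _ Ω, ⟨a, hmem⟩,
    hbig Ω hΩ hconn.isPreconnected subset_rfl, hbig, ?_⟩
  intro D hDo hDc hne u hu hub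
  exact eq_bot_of_eq_bot_on hn _ hΩ hDo hDc hne hu hub

end Pool.Agent.Results.MP_725b87_an.NoUpperTest
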